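import Pool.Agent.H19.SYA.TA

/-!
Points of the attracting plane are separated from the origin by positive weights
(row XPZ of `sya_modules`).
-/

set_option autoImplicit false

namespace Pool.Agent.H42.SYA

open MvPolynomial Pool.Agent.H2.ST Pool.Agent.H15.TG Pool.Agent.H19.SYA

theorem pf_XPZ : T_XPZ := by
  intro k _ W w φ hG hw hX z hz
  obtain ⟨i, hi⟩ : ∃ i, z i ≠ 0 := by
    by_contra h
    push Not at h
    exact hz (funext h)
  obtain ⟨F, hF⟩ := hX.sur (X i)
  refine ⟨w i, cmp hG F (w i), hw i, cmp_mem hG F (w i), ?_⟩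
  have key : φ (cmp hG F (w i)) = X i := by
    have h1 : φ F = (cmp hG F).sum fun _ x => φ x := by
      conv_lhs => rw [← cmp_sum hG F]
      rw [Finsupp.sum, map_sum, Finsupp.sum]
    have h2 : weightedHomogeneousComponent w (w i) (φ F) = X i := by
      rw [hF]
      exact (isWeightedHomogeneous_X k w i).weightedHomogeneousComponent_same
    rw [h1, Finsupp.sum, map_sum] at h2
    have h3 : ∀ n ∈ (cmp hG F).support, n ≠ w i →
        weightedHomogeneousComponent w (w i) (φ (cmp hG F n)) = 0 := by
      intro n _ hn
      exact (hX.wh n _ (cmp_mem hG F n)).weightedHomogeneousComponent_ne (w i) hn.symm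
    rw [Finset.sum_eq_single (w i) h3] at h2
    · rw [← h2]
      exact ((hX.wh (w i) _ (cmp_mem hG F (w i))).weightedHomogeneousComponent_same).symm
    · intro hns
      rw [Finsupp.notMem_support_iff.1 hns, map_zero, map_zero]
  rw [key, eval_X]
  exact hi

end Pool.Agent.H42.SYA
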